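import Pool.Agent.H67.BFL.Tal

/-!
# Board kbfo, row LJT: the coefficients of the jets along a line
-/

set_option autoImplicit false

namespace Pool.Agent.H25.BFL

open Finset Real Pool.BFL Pool.Agent.H67.BFL

variable {n : ℕ}

/-- The property of the row, for all orders and all coefficients. -/
def LP (y E : Fin n → ℝ) (K : ℕ) (F : Pl n) : Prop :=
  ∀ (i : ℕ) (k : Fin n →₀ ℕ), ∃ q : Polynomial ℝ, q.natDegree ≤ K ∧
    (∀ t, q.eval t = (jt i F (fun l => y l + t * E l)).coeff k) ∧
    ∀ t, q.derivative.eval t = (dE E (jt (i + 1) F (fun l => y l + t * E l))).coeff k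

lemma LP_C (y E : Fin n → ℝ) (K : ℕ) (c : ℝ) : LP y E K (MvPolynomial.C c) := by
  intro i k
  refine ⟨Polynomial.C ((if i = 0 then MvPolynomial.C c else 0 : Pl n).coeff k), ?_,
    fun t => ?_, fun t => ?_⟩
  · rw [Polynomial.natDegree_C]
    exact Nat.zero_le _
  · rw [Polynomial.eval_C, jt_C]
  · rw [Polynomial.derivative_C, Polynomial.eval_zero, jt_C, if_neg (Nat.succ_ne_zero i)]
    unfold dE
    simp

lemma LP_add (y E : Fin n → ℝ) (K : ℕ) (F G : Pl n) (hF : LP y E K F) (hG : LP y E K G) :
    LP y E K (F + G) := by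
  intro i k
  obtain ⟨q1, a1, a2, a3⟩ := hF i k
  obtain ⟨q2, b1, b2, b3⟩ := hG i k
  refine ⟨q1 + q2, ?_, fun t => ?_, fun t => ?_⟩
  · exact (Polynomial.natDegree_add_le _ _).trans (max_le a1 b1)
  · rw [Polynomial.eval_add, a2, b2, jt_add, MvPolynomial.coeff_add]
  · rw [Polynomial.derivative_add, Polynomial.eval_add, a3, b3, jt_add, dE_add,
      MvPolynomial.coeff_add]

lemma dE_jt_zero (E a : Fin n → ℝ) (F : Pl n) : dE E (jt 0 F a) = 0 := by
  induction F using MvPolynomial.induction_on with
  | C c => rw [jt_C, if_pos rfl, dE_C]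
  | add p q hp hq => rw [jt_add, dE_add, hp, hq, add_zero]
  | mul_X p l hp => rw [jt_mul_X_zero, dE_C_mul, hp, mul_zero]

lemma LP_mul_X (y E : Fin n → ℝ) (K : ℕ) (F : Pl n) (l : Fin n) (hF : LP y E K F) :
    LP y E (K + 1) (F * MvPolynomial.X l) := by
  -- the polynomial `y l + t E l`
  have hlin : ∀ q : Polynomial ℝ, q.natDegree ≤ K →
      ((Polynomial.C (y l) + Polynomial.C (E l) * Polynomial.X) * q).natDegree ≤ K + 1 := by
    intro q hq
    refine Polynomial.natDegree_mul_le.trans ?_
    have h1 : (Polynomial.C (y l) + Polynomial.C (E l) * Polynomial.X).natDegree ≤ 1 := by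
      refine (Polynomial.natDegree_add_le _ _).trans (max_le ?_ ?_)
      · rw [Polynomial.natDegree_C]
        exact Nat.zero_le _
      · refine (Polynomial.natDegree_C_mul_le _ _).trans ?_
        exact Polynomial.natDegree_X_le
    omega
  intro i k
  cases i with
  | zero =>
    obtain ⟨q, a1, a2, a3⟩ := hF 0 k
    refine ⟨(Polynomial.C (y l) + Polynomial.C (E l) * Polynomial.X) * q, hlin q a1,
      fun t => ?_, fun t => ?_⟩
    · rw [jt_mul_X_zero, MvPolynomial.coeff_C_mul, ← a2]
      simp only [Polynomial.eval_mul, Polynomial.eval_add, Polynomial.eval_C, Polynomial.eval_X]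
      ring
    · rw [jt_mul_X, dE_add, dE_C_mul, dE_mul_X, dE_jt_zero, zero_mul, zero_add,
        MvPolynomial.coeff_add, MvPolynomial.coeff_C_mul, MvPolynomial.coeff_C_mul, ← a2, ← a3]
      simp only [Polynomial.derivative_mul, Polynomial.derivative_add, Polynomial.derivative_C,
        Polynomial.derivative_X, Polynomial.eval_mul, Polynomial.eval_add, Polynomial.eval_C,
        Polynomial.eval_X, Polynomial.eval_zero, Polynomial.eval_one]
      ring
  | succ i =>
    obtain ⟨q, a1, a2, a3⟩ := hF (i + 1) k
    obtain ⟨q', b1, b2, b3⟩ := hF i (k - Finsupp.single l 1)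
    by_cases hl : l ∈ k.support
    · refine ⟨(Polynomial.C (y l) + Polynomial.C (E l) * Polynomial.X) * q + q', ?_,
        fun t => ?_, fun t => ?_⟩
      · exact (Polynomial.natDegree_add_le _ _).trans (max_le (hlin q a1) (by omega))
      · rw [jt_mul_X, MvPolynomial.coeff_add, MvPolynomial.coeff_C_mul, ← a2,
          MvPolynomial.coeff_mul_X', if_pos hl, ← b2]
        simp only [Polynomial.eval_mul, Polynomial.eval_add, Polynomial.eval_C,
          Polynomial.eval_X]
        ring
      · rw [jt_mul_X, dE_add, dE_C_mul, dE_mul_X, MvPolynomial.coeff_add,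
          MvPolynomial.coeff_add, MvPolynomial.coeff_C_mul, MvPolynomial.coeff_C_mul, ← a2, ← a3,
          MvPolynomial.coeff_mul_X', if_pos hl, ← b3]
        simp only [Polynomial.derivative_mul, Polynomial.derivative_add, Polynomial.derivative_C,
          Polynomial.derivative_X, Polynomial.eval_mul, Polynomial.eval_add, Polynomial.eval_C,
          Polynomial.eval_X, Polynomial.eval_zero, Polynomial.eval_one]
        ring
    · refine ⟨(Polynomial.C (y l) + Polynomial.C (E l) * Polynomial.X) * q, hlin q a1,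
        fun t => ?_, fun t => ?_⟩
      · rw [jt_mul_X, MvPolynomial.coeff_add, MvPolynomial.coeff_C_mul, ← a2,
          MvPolynomial.coeff_mul_X', if_neg hl]
        simp only [Polynomial.eval_mul, Polynomial.eval_add, Polynomial.eval_C,
          Polynomial.eval_X]
        ring
      · rw [jt_mul_X, dE_add, dE_C_mul, dE_mul_X, MvPolynomial.coeff_add,
          MvPolynomial.coeff_add, MvPolynomial.coeff_C_mul, MvPolynomial.coeff_C_mul, ← a2, ← a3,
          MvPolynomial.coeff_mul_X', if_neg hl]
        simp only [Polynomial.derivative_mul, Polynomial.derivative_add, Polynomial.derivative_C,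
          Polynomial.derivative_X, Polynomial.eval_mul, Polynomial.eval_add, Polynomial.eval_C,
          Polynomial.eval_X, Polynomial.eval_zero, Polynomial.eval_one]
        ring

lemma LP_monomial (y E : Fin n → ℝ) (c : ℝ) : ∀ (d : ℕ) (s : Fin n →₀ ℕ), s.degree = d →
    LP y E d (MvPolynomial.monomial s c) := by
  intro d
  induction d with
  | zero =>
    intro s hs
    have h0 : s = 0 := (Finsupp.degree_eq_zero_iff s).1 hs
    subst h0
    exact LP_C y E 0 c
  | succ d ih =>
    intro s hs
    have h1 : s ≠ 0 := by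
      intro h
      rw [h, map_zero] at hs
      omega
    obtain ⟨l, hl⟩ := Finsupp.ne_iff.1 h1
    rw [Finsupp.coe_zero, Pi.zero_apply] at hl
    have h2 : Finsupp.single l 1 ≤ s := by
      rw [Finsupp.single_le_iff]
      omega
    have h3 : s - Finsupp.single l 1 + Finsupp.single l 1 = s := tsub_add_cancel_of_le h2
    have h4 : (s - Finsupp.single l 1).degree = d := by
      have h5 := congrArg Finsupp.degree h3
      rw [map_add, Finsupp.degree_single, hs] at h5
      omega
    have h6 : (MvPolynomial.monomial s c : Pl n) =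
        MvPolynomial.monomial (s - Finsupp.single l 1) c * MvPolynomial.X l := by
      rw [MvPolynomial.X, MvPolynomial.monomial_mul, mul_one, h3]
    rw [h6]
    exact LP_mul_X y E d _ l (ih _ h4)

lemma LP_mono (y E : Fin n → ℝ) (K K' : ℕ) (h : K ≤ K') (F : Pl n) (hF : LP y E K F) :
    LP y E K' F := by
  intro i k
  obtain ⟨q, a1, a2⟩ := hF i k
  exact ⟨q, a1.trans h, a2⟩

lemma LP_all (y E : Fin n → ℝ) (K : ℕ) (F : Pl n) (hF : F.totalDegree ≤ K) : LP y E K F := by
  have h : ∀ S : Finset (Fin n →₀ ℕ), (∀ s ∈ S, s.degree ≤ K) →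
      LP y E K (∑ s ∈ S, MvPolynomial.monomial s (F.coeff s)) := by
    intro S
    induction S using Finset.induction_on with
    | empty =>
      intro _
      rw [Finset.sum_empty]
      have h0 := LP_C y E K (0 : ℝ)
      rwa [MvPolynomial.C_0] at h0
    | insert a S ha ih =>
      intro hS
      rw [Finset.sum_insert ha]
      refine LP_add y E K _ _ ?_ (ih fun s hs => hS s (Finset.mem_insert_of_mem hs))
      exact LP_mono y E _ K (hS a (Finset.mem_insert_self _ _)) _ (LP_monomial y E _ _ a rfl)
  rw [← MvPolynomial.support_sum_monomial_coeff F]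
  refine h F.support fun s hs => ?_
  refine le_trans ?_ hF
  have h1 := MvPolynomial.le_totalDegree hs
  rw [Finsupp.sum_fintype _ _ (fun _ => rfl)] at h1
  rw [Finsupp.degree_eq_sum]
  exact h1

/-- Row LJT. -/
theorem ljt_thm : LJTStmt := by
  intro n K i F y E k hF
  exact LP_all y E K F hF i k

end Pool.Agent.H25.BFL
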