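import Pool.Agent.H25.BFL.PRDa
import Pool.Agent.H89.BFL.JET
import Pool.Agent.H35.K2S.Dich

/-!
# Board kbfo, row PRD: the gradient of a closed label at the base point

`grad_chart`: a label of a precision well above the digit of its ball has, for most samples, a
gradient at the base point which is bounded by the chart.
-/

set_option autoImplicit false

namespace Pool.Agent.H25.BFL

open Finset Real
open Pool.Agent.H49.Ent Pool.Agent.H32.Dense Pool.STK Pool.KS3 Pool.BFL Pool.KA Pool.KSAT Pool.K2S
  Pool.PB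

variable {m J : ℕ}

/-- The good samples: the sample is on the graph of `G`, the gradient of `G` varies at most by
`exp (z / 4)` on the ball, `G` and `H` agree on the ball. -/
structure GdC (F : Fam m J) (i₁ : Fin m) (r v P z : ℕ) (G : (Fin m → ℤ) × (ℕ × F.ζ) → Pl m)
    (H : ((Fin m → ℝ) × (Fin m → ℝ)) × F.ζ × ℕ → Pl m) (ω : F.Ω) : Prop where
  g1 : |F.x ω i₁ - MvPolynomial.eval (bp F i₁ ω) (G (ptr F r ω))| ≤ 1 / 2 ^ P
  g2 : ∀ b : Fin m → ℝ, (∀ i, |b i - bp F i₁ ω i| ≤ 1 / 2 ^ v) → ∀ j,
    |MvPolynomial.eval b (MvPolynomial.pderiv j (G (ptr F r ω))) -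
      MvPolynomial.eval (bp F i₁ ω) (MvPolynomial.pderiv j (G (ptr F r ω)))| ≤
      Real.exp ((z : ℝ) / 4)
  g3 : ∀ b : Fin m → ℝ, (∀ i, |b i - bp F i₁ ω i| ≤ 1 / 2 ^ v) →
    |MvPolynomial.eval b (G (ptr F r ω)) - MvPolynomial.eval b (H (slam F v ω))| ≤ 1 / 2 ^ P

theorem Pb_eq_Pe {Ω : Type} [Fintype Ω] (p : Ω → ℝ) (A : Ω → Prop) : Pb p A = Pe p A := by
  rw [Pe_eq]
  rfl

/-- The position and the height of the sample on its line. -/
theorem bp_line (F : Fam m J) (i₁ : Fin m) (ω : F.Ω) : bp F i₁ ω =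
    fun j => Function.update (F.u ω) i₁ 0 j + F.t ω * Function.update (F.d ω) i₁ 1 j := by
  funext j
  unfold bp
  by_cases h : j = i₁
  · subst h
    rw [Function.update_self, Function.update_self, Function.update_self]
    ring
  · rw [Function.update_of_ne h, Function.update_of_ne h, Function.update_of_ne h]
    rfl

/-- The relative time in the window. -/
theorem time_window (F : Fam m J) {v : ℕ} (hv : v ≤ J) (ω : F.Ω) :
    (F.T1 v ω : ℝ) / 2 ^ v + 1 / 2 ^ v * (((F.T ω % 2 ^ (J - v) : ℕ) : ℝ) /
      ((2 ^ (J - v) : ℕ) : ℝ)) = F.t ω := by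
  have h3 : ((2 ^ (J - v) * (F.T ω / 2 ^ (J - v)) + F.T ω % 2 ^ (J - v) : ℕ) : ℝ) = F.T ω := by
    rw [Nat.div_add_mod]
  rw [Nat.cast_add, Nat.cast_mul] at h3
  have h4 : (2 : ℝ) ^ J = 2 ^ (J - v) * 2 ^ v := by
    rw [← pow_add]; congr 1; omega
  unfold Fam.t Fam.T1
  rw [h4, ← h3]
  have h5 : ((2 ^ (J - v) : ℕ) : ℝ) = 2 ^ (J - v) := by push_cast; rfl
  rw [h5]
  field_simp

/-- Two samples at the same exact point have close base points. -/
theorem bp_near (F : Fam m J) (i₁ : Fin m) {ω ω' : F.Ω} (h : Fam.pt F ω = Fam.pt F ω') (j : Fin m) :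
    |bp F i₁ ω j - bp F i₁ ω' j| ≤ 1 / 2 ^ J := by
  unfold Fam.pt at h
  simp only [Prod.mk.injEq, Fam.W] at h
  obtain ⟨h1, h2, _⟩ := h
  unfold bp
  by_cases hj : j = i₁
  · subst hj
    rw [Function.update_self, Function.update_self]
    unfold Fam.t
    rw [h2, sub_self, abs_zero]
    positivity
  · rw [Function.update_of_ne hj, Function.update_of_ne hj]
    have h3 : ⌊(2 : ℝ) ^ J * F.x ω j⌋ = ⌊(2 : ℝ) ^ J * F.x ω' j⌋ := congrFun h1 j
    have h4 := Int.floor_le ((2 : ℝ) ^ J * F.x ω j)
    have h5 := Int.lt_floor_add_one ((2 : ℝ) ^ J * F.x ω j)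
    have h6 := Int.floor_le ((2 : ℝ) ^ J * F.x ω' j)
    have h7 := Int.lt_floor_add_one ((2 : ℝ) ^ J * F.x ω' j)
    rw [h3] at h4 h5
    rw [le_div_iff₀ (by positivity)]
    have h8 : |F.x ω j - F.x ω' j| * 2 ^ J = |2 ^ J * F.x ω j - 2 ^ J * F.x ω' j| := by
      rw [← mul_sub, abs_mul, abs_of_pos (show (0 : ℝ) < 2 ^ J by positivity)]
      ring
    rw [h8, abs_le]
    constructor <;> linarith

/-- The sum of the chart. -/
theorem chart_sum (i₁ : Fin m) (s d : Fin m → ℝ) (n : ℝ) (hs : s i₁ = 0) :
    ∑ i, Function.update s i₁ n i * Function.update d i₁ 1 i = n + ∑ i, s i * d i := by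
  classical
  rw [← Finset.add_sum_erase univ _ (Finset.mem_univ i₁),
    ← Finset.add_sum_erase univ (fun i => s i * d i) (Finset.mem_univ i₁), hs,
    Function.update_self, Function.update_self, mul_one, zero_mul, zero_add]
  congr 1
  refine Finset.sum_congr rfl fun i hi => ?_
  rw [Function.update_of_ne (Finset.ne_of_mem_erase hi),
    Function.update_of_ne (Finset.ne_of_mem_erase hi)]

/-- A linear form with small coefficients. -/
theorem sum_small {f E : Fin m → ℝ} {x : ℝ} (hf : ∀ i, |f i| ≤ x) (hE : ∀ i, |E i| ≤ 1) :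
    |∑ i, f i * E i| ≤ m * x := by
  refine (Finset.abs_sum_le_sum_abs _ _).trans ?_
  have h : ∀ i ∈ (univ : Finset (Fin m)), |f i * E i| ≤ x := by
    intro i _
    rw [abs_mul]
    calc |f i| * |E i| ≤ x * 1 := mul_le_mul (hf i) (hE i) (abs_nonneg _)
          ((abs_nonneg _).trans (hf i))
      _ = x := mul_one x
  refine (Finset.sum_le_card_nsmul _ _ _ h).trans ?_
  rw [nsmul_eq_mul, Finset.card_univ, Fintype.card_fin]

theorem upd_le {d : Fin m → ℝ} (i₁ : Fin m) (h : ∀ i, |d i| ≤ 1) (i : Fin m) :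
    |Function.update d i₁ 1 i| ≤ 1 := by
  by_cases hi : i = i₁
  · subst hi
    rw [Function.update_self, abs_one]
  · rw [Function.update_of_ne hi]
    exact h i

/-- The degree of a derivative. -/
theorem pd_deg {K : ℕ} {F : Pl m} (h : F.totalDegree ≤ K) (j : Fin m) :
    (MvPolynomial.pderiv j F).totalDegree ≤ K :=
  (Pool.Agent.H50.PW.totalDegree_pderiv_le F j).trans h

/-- **The gradient at the base point.** -/
theorem grad_chart (m K : ℕ) (κ a : ℝ) (hκ : 0 < κ) (hκ8 : κ ≤ 1 / 8) (ha : 0 < a) :
    ∃ κ₁ : ℝ, 0 < κ₁ ∧ ∃ z₀ : ℕ, ∀ (J r z v P h : ℕ) (ψ gs : ℝ) (F : Fam m J) (i₁ : Fin m)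
      (A B : F.Ω → Prop) (G : (Fin m → ℤ) × (ℕ × F.ζ) → Pl m)
      (H : ((Fin m → ℝ) × (Fin m → ℝ)) × F.ζ × ℕ → Pl m),
      z₀ ≤ z → r ≤ J → v + z ≤ P → v + z ≤ J → 0 < Pe F.p A →
      Ch F i₁ h A → κ * z ≤ 2 * (h * Real.log 2) → 4 * (gs * J) ≤ κ * z → 0 < gs →
      Sp F (m - 2) ψ gs A → Sub B A → Real.exp (-(ψ * J)) * Pe F.p A ≤ κ * Pe F.p B →
      J * Real.log 2 - κ₁ * z ≤
        CH (Pool.Agent.H49.Ent.cond F.p B True) F.T (fun ω => (F.l ω, F.Z ω)) →
      (∀ y, (G y).totalDegree ≤ K) → (∀ s, (H s).totalDegree ≤ K) →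
      Pb (Pool.Agent.H49.Ent.cond F.p B True) (fun ω => GdC F i₁ r v P z G H ω ∧
        ∃ j, m + a < |MvPolynomial.eval (bp F i₁ ω) (MvPolynomial.pderiv j (G (ptr F r ω)))|) ≤
        2 * κ := by
  classical
  obtain ⟨C1, hC1, hrem⟩ := rem_and (max K 1)
  obtain ⟨C2, hC2, hgs⟩ := grad_small m K
  obtain ⟨C3, hC3, hns⟩ := near_small m K
  obtain ⟨C4, hC4, hls⟩ := line_slope K
  obtain ⟨C5, hC5⟩ : ∃ C5 : ℝ, C5 = 1 + 2 * C4 + m * C2 + m * C3 := ⟨_, rfl⟩
  have hC50 : 1 ≤ C5 := by
    rw [hC5]
    have h1 : 0 ≤ (m : ℝ) * C2 := by positivity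
    have h2 : 0 ≤ (m : ℝ) * C3 := by positivity
    linarith only [hκ, hκ8, hC4, h1, h2]
  obtain ⟨C6, hC6⟩ : ∃ C6 : ℝ, C6 = 1 + 4 * m * C5 / a + 4 * C5 / a + 2 / a := ⟨_, rfl⟩
  have hC60 : 1 ≤ C6 := by
    rw [hC6]
    have h1 : 0 ≤ 4 * m * C5 / a := by positivity
    have h2 : 0 ≤ 4 * C5 / a := by positivity
    have h3 : 0 ≤ 2 / a := by positivity
    linarith only [h1, h2, h3]
  refine ⟨κ / (8 * C1), by positivity, ⌈8 * C1 / κ⌉₊ + ⌈4 * C6 / κ⌉₊ + 1, ?_⟩
  intro J r z v P h ψ gs F i₁ A B G H hz hrJ hvP hvJ hA hCh hh hgsJ hgs0 hSp hBA hAB htime hGd hHd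
  have hz1 : 8 * C1 / κ ≤ z := by
    have h1 : 8 * C1 / κ ≤ (⌈8 * C1 / κ⌉₊ : ℝ) := Nat.le_ceil _
    have h2 : ((⌈8 * C1 / κ⌉₊ : ℕ) : ℝ) ≤ z := by exact_mod_cast (by omega)
    linarith only [h1, h2]
  have hz2 : 4 * C6 / κ ≤ z := by
    have h1 : 4 * C6 / κ ≤ (⌈4 * C6 / κ⌉₊ : ℝ) := Nat.le_ceil _
    have h2 : ((⌈4 * C6 / κ⌉₊ : ℕ) : ℝ) ≤ z := by exact_mod_cast (by omega)
    linarith only [h1, h2]
  have hz3 : (1 : ℝ) ≤ z := by exact_mod_cast (by omega)
  have hv : v ≤ J := by omega
  exact by
   have hB : 0 < Pe F.p B := by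
     have h1 : 0 < κ * Pe F.p B := lt_of_lt_of_le (by positivity) hAB
     exact (pos_iff_pos_of_mul_pos h1).1 hκ
   obtain ⟨q, hq⟩ : ∃ q, q = Pool.Agent.H49.Ent.cond F.p B True := ⟨_, rfl⟩
   have hql : IsLaw q := by rw [hq]; exact isLaw_cond F.isLaw hB
   rw [← hq] at htime ⊢
   have hqB : ∀ ω, 0 < q ω → B ω := by
     intro ω hω
     rw [hq] at hω
     have := ((cond_pos_iff F.isLaw.nonneg B True ω).1 hω).2
     simpa using this
   -- small quantities
   obtain ⟨X, hX⟩ : ∃ X : ℝ, X = Real.exp (-(κ * z / 4)) := ⟨_, rfl⟩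
   have hX0 : 0 < X := by rw [hX]; positivity
   have hCX : C6 * X ≤ 1 := by
     rw [hX, Real.exp_neg, ← div_eq_mul_inv, div_le_one (Real.exp_pos _)]
     have h1 : C6 ≤ κ * z / 4 := by
       rw [div_le_iff₀ hκ] at hz2
       linarith only [hz2]
     have h2 := Real.add_one_le_exp (κ * z / 4)
     linarith only [hκ, hκ8, h1, h2]
   have hX1 : X ≤ 1 := by nlinarith only [hCX, hC60, hX0]
   have hX2 : X ^ 2 = Real.exp (-(κ * z / 2)) := by
     rw [hX, ← Real.exp_nat_mul]
     congr 1
     push_cast
     ring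
   have hlog2 : 0 < Real.log 2 := Real.log_pos (by norm_num)
   have hlog2' : (0.6931 : ℝ) ≤ Real.log 2 := by
     have := Real.log_two_gt_d9
     linarith only [hκ, hκ8, this]
   exact by
    have hlog2'' : Real.log 2 ≤ 1 := by
      have := Real.log_two_lt_d9
      linarith only [hκ, hκ8, this]
    have hpow : ∀ k : ℕ, (1 : ℝ) / 2 ^ k = Real.exp (-(k * Real.log 2)) := by
      intro k
      rw [Real.exp_neg, Real.exp_nat_mul, Real.exp_log (by norm_num), one_div]
    have hh' : (1 : ℝ) / 2 ^ h ≤ X ^ 2 := by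
      rw [hpow, hX2]
      exact Real.exp_le_exp.2 (by linarith only [hh])
    have hzz : Real.exp ((z : ℝ) / 4) * (1 / 2 ^ z) ≤ X ^ 2 := by
      rw [hpow, hX2, ← Real.exp_add]
      refine Real.exp_le_exp.2 ?_
      nlinarith only [hκ, hκ8, hz3, hlog2']
    have hz2' : (1 : ℝ) / 2 ^ z ≤ X ^ 2 := by
      refine le_trans ?_ hzz
      have h1 : 1 ≤ Real.exp ((z : ℝ) / 4) := Real.one_le_exp (by positivity)
      have h2 : (0 : ℝ) < 1 / 2 ^ z := by positivity
      nlinarith only [hκ, hκ8, h1, h2]
    have hgs' : X ≤ 1 / 2 ^ ⌊gs * J⌋₊ := by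
      rw [hpow, hX]
      refine Real.exp_le_exp.2 ?_
      have h1 : ((⌊gs * J⌋₊ : ℕ) : ℝ) ≤ gs * J := Nat.floor_le (by positivity)
      have h2 : ((⌊gs * J⌋₊ : ℕ) : ℝ) * Real.log 2 ≤ gs * J * 1 :=
        mul_le_mul h1 hlog2'' hlog2.le (by positivity)
      linarith only [hgsJ, h2]
    have hratio : ∀ k : ℕ, v + z ≤ k → (1 : ℝ) / 2 ^ k * 2 ^ v ≤ 1 / 2 ^ z := by
      intro k hk
      have h1 : (2 : ℝ) ^ k = 2 ^ (k - v) * 2 ^ v := by rw [← pow_add]; congr 1; omega
      rw [h1, one_div, mul_inv, mul_assoc, inv_mul_cancel₀ (by positivity), mul_one, one_div]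
      refine inv_anti₀ (by positivity) (pow_le_pow_right₀ (by norm_num) (by omega))
    -- the polynomial of the height above `H` along the line
    exact by
     obtain ⟨Q, hQ⟩ : ∃ Q : ((Fin m → ℝ) × (Fin m → ℝ)) × F.ζ × ℕ → Polynomial ℝ,
         Q = fun s => lp (H s) (Function.update s.1.1 i₁ 0) (Function.update s.1.2 i₁ 1) (s.1.1 i₁)
           (s.1.2 i₁) ((s.2.2 : ℝ) / 2 ^ v) (1 / 2 ^ v) := ⟨_, rfl⟩
     obtain ⟨S₀, hS₀⟩ : ∃ S₀ : ℝ, S₀ = 2 / 2 ^ P := ⟨_, rfl⟩
     have hS₀0 : 0 < S₀ := by rw [hS₀]; positivity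
     obtain ⟨N, hN⟩ : ∃ N : ℕ, N = 2 ^ (J - v) := ⟨_, rfl⟩
     obtain ⟨M, hM⟩ : ∃ M : ℝ, M = z / 4 := ⟨_, rfl⟩
     obtain ⟨RG, hRG⟩ : ∃ RG : F.Ω → Prop, RG = fun ω => ∀ t ∈ Set.Icc (0 : ℝ) 1,
         |(Q (slam F v ω)).eval t| ≤ Real.exp M * S₀ := ⟨_, rfl⟩
     have hlogN : Real.log N = ((J : ℝ) - v) * Real.log 2 := by
       rw [hN, Nat.cast_pow, Real.log_pow, Nat.cast_sub hv, Nat.cast_ofNat]
     have hbad1 : Pb q (fun ω => GdC F i₁ r v P z G H ω ∧ ¬ RG ω) ≤ κ := by
       have hM0 : 0 < M := by rw [hM]; positivity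
       have h1 := hrem F.Ω _ q N (fun ω => F.T ω % 2 ^ (J - v)) (slam F v) Q
         (GdC F i₁ r v P z G H) (fun _ => S₀) (κ / (8 * C1) * z) M hql
         (fun ω => by rw [hN]; exact Nat.mod_lt _ (by positivity))
         (fun s => by rw [hQ]; exact lp_natDegree (hHd s) _ _ _ _ _ _) (by positivity) hM0
         (by
           rw [hM, hlogN]
           have h2 : (z : ℝ) ≤ (J : ℝ) - v := by
             have : ((v + z : ℕ) : ℝ) ≤ J := by exact_mod_cast hvJ
             push_cast at this
             linarith only [this]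
           nlinarith only [hgsJ, hκ8, hlog2', hgs0, hκ, hz3, h2, hlog2])
         (by
           rw [hlogN]
           have h2 := Pool.Agent.H89.BFL.win_time hql F.T (fun ω => (F.l ω, F.Z ω)) J v hv F.tim
             (κ / (8 * C1) * z) htime
           refine h2.trans (CH_mono_cond hql.nonneg fun ω ω' _ _ he => ?_)
           simp only [Prod.mk.injEq] at he
           unfold slam Fam.T1
           rw [he.1.1, he.1.2, he.2])
         (fun _ => hS₀0)
         (fun ω _ hω => by
           rw [hQ]
           simp only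
           rw [lp_eval]
           have e1 : ((slam F v ω).2.2 : ℝ) / 2 ^ v + 1 / 2 ^ v *
               (((F.T ω % 2 ^ (J - v) : ℕ) : ℝ) / (N : ℝ)) = F.t ω := by
             rw [hN]
             exact time_window F hv ω
           rw [e1]
           have e2 : (fun j => Function.update (slam F v ω).1.1 i₁ 0 j + F.t ω *
               Function.update (slam F v ω).1.2 i₁ 1 j) = bp F i₁ ω := (bp_line F i₁ ω).symm
           rw [e2]
           have e3 : (slam F v ω).1.1 i₁ + F.t ω * (slam F v ω).1.2 i₁ = F.x ω i₁ := rfl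
           rw [e3, hS₀]
           have h3 := hω.g1
           have h4 := hω.g3 (bp F i₁ ω) (fun i => by rw [sub_self, abs_zero]; positivity)
           have h5 : (2 : ℝ) / 2 ^ P = 1 / 2 ^ P + 1 / 2 ^ P := by ring
           rw [h5]
           have h6 : F.x ω i₁ - MvPolynomial.eval (bp F i₁ ω) (H (slam F v ω)) =
             (F.x ω i₁ - MvPolynomial.eval (bp F i₁ ω) (G (ptr F r ω))) +
             (MvPolynomial.eval (bp F i₁ ω) (G (ptr F r ω)) -
               MvPolynomial.eval (bp F i₁ ω) (H (slam F v ω))) := by ring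
           rw [h6]
           exact (abs_add_le _ _).trans (add_le_add h3 h4))
       have h2 : C1 * (κ / (8 * C1) * z + 1) ≤ M * κ := by
         rw [hM]
         have h3 : C1 * (κ / (8 * C1) * z + 1) = κ * z / 8 + C1 := by
           field_simp
         rw [h3]
         rw [div_le_iff₀ hκ] at hz1
         linarith only [hz1]
       have h3 := h1.trans h2
       have h4 := le_of_mul_le_mul_left h3 hM0
       refine le_trans (le_of_eq ?_) h4
       rw [hRG]
     -- the samples with a large gradient
     exact by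
      obtain ⟨Big, hBig⟩ : ∃ Big : F.Ω → Prop, Big = fun ω => (B ω ∧ GdC F i₁ r v P z G H ω ∧ RG ω) ∧
          ∃ j, m + a < |MvPolynomial.eval (bp F i₁ ω) (MvPolynomial.pderiv j (G (ptr F r ω)))| :=
        ⟨_, rfl⟩
      obtain ⟨n, s, hns'⟩ := hCh
      have hslope : ∀ ω, GdC F i₁ r v P z G H ω → RG ω →
          |(∑ j, MvPolynomial.eval (bp F i₁ ω) (MvPolynomial.pderiv j (G (ptr F r ω))) *
            Function.update (F.d ω) i₁ 1 j) - F.d ω i₁| ≤ (2 * C4 + m * C2) * X ^ 2 := by
        intro ω h1 h2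
        rw [hRG] at h2
        have h3 := hls m (H (slam F v ω)) (Function.update (F.u ω) i₁ 0) (Function.update (F.d ω) i₁ 1)
          (F.u ω i₁) (F.d ω i₁) ((F.T1 v ω : ℝ) / 2 ^ v) (1 / 2 ^ v) (Real.exp M * S₀)
          (hHd _) (by positivity) (fun τ hτ => by
            have h4 := h2 τ hτ
            rw [hQ] at h4
            exact h4) (((F.T ω % 2 ^ (J - v) : ℕ) : ℝ) / ((2 ^ (J - v) : ℕ) : ℝ)) ⟨by positivity, by
            rw [div_le_one (by positivity)]
            exact_mod_cast (Nat.mod_lt _ (by positivity)).le⟩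
        rw [time_window F hv ω, ← bp_line F i₁ ω] at h3
        have h4 : C4 * (Real.exp M * S₀) / (1 / 2 ^ v) ≤ 2 * C4 * X ^ 2 := by
          rw [div_div_eq_mul_div, div_one, hS₀, hM]
          have h5 := hratio P hvP
          have h6 : Real.exp ((z : ℝ) / 4) * (1 / 2 ^ P * 2 ^ v) ≤ X ^ 2 :=
            (mul_le_mul_of_nonneg_left h5 (Real.exp_pos _).le).trans hzz
          calc C4 * (Real.exp ((z : ℝ) / 4) * (2 / 2 ^ P)) * 2 ^ v =
                2 * C4 * (Real.exp ((z : ℝ) / 4) * (1 / 2 ^ P * 2 ^ v)) := by ring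
            _ ≤ 2 * C4 * X ^ 2 := mul_le_mul_of_nonneg_left h6 (by positivity)
        have h5 : ∀ j, |MvPolynomial.eval (bp F i₁ ω) (MvPolynomial.pderiv j (G (ptr F r ω))) -
            MvPolynomial.eval (bp F i₁ ω) (MvPolynomial.pderiv j (H (slam F v ω)))| ≤ C2 * X ^ 2 := by
          intro j
          have h6 := hgs (G (ptr F r ω) - H (slam F v ω)) (bp F i₁ ω) (1 / 2 ^ v) (1 / 2 ^ P)
            ((MvPolynomial.totalDegree_sub _ _).trans (max_le (hGd _) (hHd _))) (by positivity)
            (fun b hb => by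
              rw [map_sub]
              exact h1.g3 b hb) j
          rw [map_sub, map_sub] at h6
          refine h6.trans ?_
          have h7 := (hratio P hvP).trans hz2'
          calc C2 * (1 / 2 ^ P) / (1 / 2 ^ v) = C2 * (1 / 2 ^ P * 2 ^ v) := by
                field_simp
            _ ≤ C2 * X ^ 2 := mul_le_mul_of_nonneg_left h7 (by positivity)
        have h6 := sum_small h5 (upd_le i₁ (F.dir ω))
        have h7 : (∑ j, MvPolynomial.eval (bp F i₁ ω) (MvPolynomial.pderiv j (G (ptr F r ω))) *
            Function.update (F.d ω) i₁ 1 j) - F.d ω i₁ =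
            (∑ j, (MvPolynomial.eval (bp F i₁ ω) (MvPolynomial.pderiv j (G (ptr F r ω))) -
              MvPolynomial.eval (bp F i₁ ω) (MvPolynomial.pderiv j (H (slam F v ω)))) *
              Function.update (F.d ω) i₁ 1 j) -
            (F.d ω i₁ - ∑ j, Function.update (F.d ω) i₁ 1 j *
              MvPolynomial.eval (bp F i₁ ω) (MvPolynomial.pderiv j (H (slam F v ω)))) := by
          have h8 : ∑ j, (MvPolynomial.eval (bp F i₁ ω) (MvPolynomial.pderiv j (G (ptr F r ω))) -
              MvPolynomial.eval (bp F i₁ ω) (MvPolynomial.pderiv j (H (slam F v ω)))) *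
              Function.update (F.d ω) i₁ 1 j =
              ∑ j, MvPolynomial.eval (bp F i₁ ω) (MvPolynomial.pderiv j (G (ptr F r ω))) *
                Function.update (F.d ω) i₁ 1 j - ∑ j, Function.update (F.d ω) i₁ 1 j *
              MvPolynomial.eval (bp F i₁ ω) (MvPolynomial.pderiv j (H (slam F v ω))) := by
            rw [← Finset.sum_sub_distrib]
            refine Finset.sum_congr rfl fun j _ => ?_
            ring
          rw [h8]
          ring
        rw [h7]
        refine (abs_sub _ _).trans ?_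
        have h8 := h3.trans h4
        nlinarith only [h3, h4, h6]
      exact by
       have hplane : PlU (m - 2) (1 / 2 ^ ⌊gs * J⌋₊) (Fam.pt F) F.d Big := by
         have key : ∀ x : (Fin m → ℤ) × (ℕ × F.ζ),
             ∃ S : (Fin m → ℝ) × (Fin (m - 2) → Fin m → ℝ), ∀ ω, Big ω → Fam.pt F ω = x →
               ∃ c : Fin (m - 2) → ℝ, ∀ i, |F.d ω i - S.1 i - ∑ l, c l * S.2 l i| ≤
                 1 / 2 ^ ⌊gs * J⌋₊ := by
           intro x
           by_cases hx : ∃ ω₀, Big ω₀ ∧ Fam.pt F ω₀ = x
           · obtain ⟨ω₀, hω₀, hx₀⟩ := hx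
             rw [hBig] at hω₀
             obtain ⟨⟨hB0, hG0, hR0⟩, j₀, hj₀⟩ := hω₀
             obtain ⟨hs0, hs1, hn0⟩ := hns' ω₀ (hBA ω₀ hB0)
             rw [hx₀] at hs0 hs1 hn0
             obtain ⟨u, hu⟩ : ∃ u : Fin m → ℝ, u = fun j =>
               MvPolynomial.eval (bp F i₁ ω₀) (MvPolynomial.pderiv j (G (ptr F r ω₀))) -
                 Function.update (s x) i₁ (n x) j := ⟨_, rfl⟩
             have hpt : ∀ ω, Fam.pt F ω = x → ptr F r ω = ptr F r ω₀ := by
               intro ω hω
               obtain ⟨φ, hφ⟩ := ptr_coarse F hrJ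
               rw [hφ ω, hφ ω₀, ptr_J, hω, hx₀]
             have hu1 : a / 2 ≤ |u j₀| := by
               have h1 : |Function.update (s x) i₁ (n x) j₀| ≤ m + a / 2 := by
                 have hm1 : (1 : ℝ) ≤ m := by exact_mod_cast i₁.pos
                 by_cases hj : j₀ = i₁
                 · subst hj
                   rw [Function.update_self]
                   have h2 : |∑ j, s x j * F.d ω₀ j| ≤ m - 1 := by
                     rw [← Finset.add_sum_erase univ _ (Finset.mem_univ j₀), hs0, zero_mul, zero_add]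
                     refine (Finset.abs_sum_le_sum_abs _ _).trans ?_
                     have h3 : ∀ i ∈ univ.erase j₀, |s x i * F.d ω₀ i| ≤ 1 := by
                       intro i _
                       rw [abs_mul]
                       calc |s x i| * |F.d ω₀ i| ≤ 1 * 1 :=
                             mul_le_mul (hs1 i) (F.dir ω₀ i) (abs_nonneg _) zero_le_one
                         _ = 1 := one_mul 1
                     refine (Finset.sum_le_card_nsmul _ _ _ h3).trans ?_
                     rw [nsmul_eq_mul, mul_one, Finset.card_erase_of_mem (Finset.mem_univ j₀),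
                       Finset.card_univ, Fintype.card_fin, Nat.cast_sub (by exact j₀.pos),
                       Nat.cast_one]
                   have h4 : n x = F.d ω₀ j₀ - ∑ j, s x j * F.d ω₀ j -
                       (F.d ω₀ j₀ - n x - ∑ j, s x j * F.d ω₀ j) := by ring
                   have h5 : (1 : ℝ) / 2 ^ h ≤ a / 2 := by
                     have h6 : 2 / a * X ≤ 1 := by
                       refine le_trans ?_ hCX
                       refine mul_le_mul_of_nonneg_right ?_ hX0.le
                       rw [hC6]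
                       have h1 : 0 ≤ 4 * m * C5 / a := by positivity
                       have h2 : 0 ≤ 4 * C5 / a := by positivity
                       linarith only [hκ, hκ8, h1, h2]
                     have h7 : X ≤ a / 2 := by
                       rw [div_mul_eq_mul_div, div_le_one ha] at h6
                       linarith only [h6]
                     nlinarith only [hh', h7, hC60, hκ, hκ8, hX0, hCX]
                   have h6 := F.dir ω₀ j₀
                   have h8 : |n x| ≤ |F.d ω₀ j₀| + |∑ j, s x j * F.d ω₀ j| +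
                       |F.d ω₀ j₀ - n x - ∑ j, s x j * F.d ω₀ j| := by
                     conv_lhs => rw [h4]
                     exact (abs_sub _ _).trans (add_le_add (abs_sub _ _) le_rfl)
                   linarith only [hn0, h2, h5, h6, h8]
                 · rw [Function.update_of_ne hj]
                   have := hs1 j₀
                   linarith only [ha, hm1, this]
               have h2 : |MvPolynomial.eval (bp F i₁ ω₀) (MvPolynomial.pderiv j₀ (G (ptr F r ω₀)))| ≤
                   |u j₀| + |Function.update (s x) i₁ (n x) j₀| := by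
                 have h3 : MvPolynomial.eval (bp F i₁ ω₀) (MvPolynomial.pderiv j₀ (G (ptr F r ω₀))) =
                     u j₀ + Function.update (s x) i₁ (n x) j₀ := by
                   rw [hu]
                   ring
                 rw [h3]
                 exact abs_add_le _ _
               linarith only [hj₀, h1, h2]
             have hδ : 2 * (C5 * X ^ 2) < a / 2 := by
               have h6 : 4 * C5 / a * X < 1 := by
                 refine lt_of_lt_of_le ?_ hCX
                 refine mul_lt_mul_of_pos_right ?_ hX0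
                 rw [hC6]
                 have h1 : 0 ≤ 4 * m * C5 / a := by positivity
                 have h3 : 0 ≤ 2 / a := by positivity
                 linarith only [hκ, hκ8, h1, h3]
               rw [div_mul_eq_mul_div, div_lt_one ha] at h6
               have h7 : C5 * X ^ 2 ≤ C5 * X := by
                 refine mul_le_mul_of_nonneg_left ?_ (by positivity)
                 nlinarith only [hC60, hX0, hCX]
               linarith only [h6, h7]
             obtain ⟨b, e, hbe⟩ := plane i₁ u (s x) (n x) (C5 * X ^ 2) (1 / 2 ^ h) (a / 2) hs0 hs1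
               ⟨j₀, hu1⟩ (by positivity) (by positivity) hδ
             refine ⟨(b, e), fun ω hω hωx => ?_⟩
             rw [hBig] at hω
             obtain ⟨⟨hB1, hG1, hR1⟩, _⟩ := hω
             obtain ⟨_, _, hn1⟩ := hns' ω (hBA ω hB1)
             rw [hωx] at hn1
             have h1 := hslope ω hG1 hR1
             rw [hpt ω hωx] at h1
             have h2 : ∀ j, |MvPolynomial.eval (bp F i₁ ω₀)
                 (MvPolynomial.pderiv j (G (ptr F r ω₀))) -
                 MvPolynomial.eval (bp F i₁ ω) (MvPolynomial.pderiv j (G (ptr F r ω₀)))| ≤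
                 C3 * X ^ 2 := by
               intro j
               have h3 := hns (MvPolynomial.pderiv j (G (ptr F r ω₀))) (bp F i₁ ω₀) (bp F i₁ ω)
                 (1 / 2 ^ v) (Real.exp ((z : ℝ) / 4)) (1 / 2 ^ J) (pd_deg (hGd _) j) (by positivity)
                 (inv_mono hv) (fun b hb => hG0.g2 b hb j)
                 (fun i => bp_near F i₁ (hωx.trans hx₀.symm) i)
               rw [abs_sub_comm]
               refine h3.trans ?_
               have h4 := hratio J hvJ
               have h5 : Real.exp ((z : ℝ) / 4) * (1 / 2 ^ J * 2 ^ v) ≤ X ^ 2 :=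
                 (mul_le_mul_of_nonneg_left h4 (Real.exp_pos _).le).trans hzz
               calc C3 * Real.exp ((z : ℝ) / 4) * (1 / 2 ^ J / (1 / 2 ^ v)) =
                     C3 * (Real.exp ((z : ℝ) / 4) * (1 / 2 ^ J * 2 ^ v)) := by
                     field_simp
                 _ ≤ C3 * X ^ 2 := mul_le_mul_of_nonneg_left h5 (by positivity)
             have h3 := sum_small h2 (upd_le i₁ (F.dir ω))
             have h4 : |∑ i, u i * Function.update (F.d ω) i₁ 1 i| ≤ C5 * X ^ 2 := by
               have h5 : ∑ i, u i * Function.update (F.d ω) i₁ 1 i =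
                   (∑ i, (MvPolynomial.eval (bp F i₁ ω₀) (MvPolynomial.pderiv i (G (ptr F r ω₀))) -
                     MvPolynomial.eval (bp F i₁ ω) (MvPolynomial.pderiv i (G (ptr F r ω₀)))) *
                     Function.update (F.d ω) i₁ 1 i) +
                   ((∑ i, MvPolynomial.eval (bp F i₁ ω) (MvPolynomial.pderiv i (G (ptr F r ω₀))) *
                     Function.update (F.d ω) i₁ 1 i) - F.d ω i₁) +
                   (F.d ω i₁ - n x - ∑ i, s x i * F.d ω i) := by
                 have h6 : ∑ i, u i * Function.update (F.d ω) i₁ 1 i =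
                     (∑ i, MvPolynomial.eval (bp F i₁ ω₀) (MvPolynomial.pderiv i (G (ptr F r ω₀))) *
                       Function.update (F.d ω) i₁ 1 i) -
                     ∑ i, Function.update (s x) i₁ (n x) i * Function.update (F.d ω) i₁ 1 i := by
                   rw [hu, ← Finset.sum_sub_distrib]
                   refine Finset.sum_congr rfl fun i _ => ?_
                   ring
                 have h7 : ∑ i, (MvPolynomial.eval (bp F i₁ ω₀)
                     (MvPolynomial.pderiv i (G (ptr F r ω₀))) -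
                     MvPolynomial.eval (bp F i₁ ω) (MvPolynomial.pderiv i (G (ptr F r ω₀)))) *
                     Function.update (F.d ω) i₁ 1 i =
                     (∑ i, MvPolynomial.eval (bp F i₁ ω₀) (MvPolynomial.pderiv i (G (ptr F r ω₀))) *
                       Function.update (F.d ω) i₁ 1 i) -
                     ∑ i, MvPolynomial.eval (bp F i₁ ω) (MvPolynomial.pderiv i (G (ptr F r ω₀))) *
                     Function.update (F.d ω) i₁ 1 i := by
                   rw [← Finset.sum_sub_distrib]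
                   refine Finset.sum_congr rfl fun i _ => ?_
                   ring
                 rw [h6, h7, chart_sum i₁ (s x) (F.d ω) (n x) hs0]
                 ring
               rw [h5]
               refine (abs_add_three _ _ _).trans ?_
               have h6 : C5 * X ^ 2 = m * (C3 * X ^ 2) + (2 * C4 + m * C2) * X ^ 2 + X ^ 2 := by
                 rw [hC5]
                 ring
               rw [h6]
               exact add_le_add (add_le_add h3 h1) (hn1.trans hh')
             obtain ⟨c, hc⟩ := hbe (F.d ω) (F.dir ω) h4 hn1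
             refine ⟨c, fun i => (hc i).trans (le_trans ?_ hgs')⟩
             have h5 : 2 * m * (C5 * X ^ 2) / (a / 2) = 4 * m * C5 / a * X ^ 2 := by
               field_simp
               ring
             rw [h5]
             have h6 : (1 + 4 * m * C5 / a) * X ^ 2 ≤ C6 * X ^ 2 := by
               refine mul_le_mul_of_nonneg_right ?_ (by positivity)
               rw [hC6]
               have h1 : 0 ≤ 4 * C5 / a := by positivity
               have h2 : 0 ≤ 2 / a := by positivity
               linarith only [h1, h2]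
             have h7 : C6 * X ^ 2 ≤ X := by
               have : C6 * X ^ 2 = C6 * X * X := by ring
               rw [this]
               nlinarith only [hκ, hκ8, hX0, hCX]
             linarith only [hh', h6, h7]
           · push Not at hx
             exact ⟨0, fun ω hω hωx => absurd hωx (hx ω hω)⟩
         choose ζ hζ using key
         exact ⟨ζ, fun ω hω => hζ (Fam.pt F ω) ω hω rfl⟩
       exact by
        have hbad2 : Pb q Big ≤ κ := by
          have hsub : Sub Big A := fun ω hω => by
            rw [hBig] at hω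
            exact hBA ω hω.1.1
          have h1 : Pe F.p Big < Real.exp (-(ψ * J)) * Pe F.p A := by
            by_contra hcon
            exact hSp Big hsub (not_lt.1 hcon) hplane
          rw [Pb_eq_Pe, hq, Pe_cond, div_le_iff₀ hB]
          refine le_trans ?_ (h1.le.trans hAB)
          exact Pe_mono F.isLaw fun ω hω => hω.2
        have h1 : Pb q (fun ω => GdC F i₁ r v P z G H ω ∧
            ∃ j, m + a < |MvPolynomial.eval (bp F i₁ ω) (MvPolynomial.pderiv j (G (ptr F r ω)))|) ≤
            Pb q (fun ω => Big ω ∨ (GdC F i₁ r v P z G H ω ∧ ¬ RG ω)) := by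
          refine Pool.Agent.H39.BFL.Pb_mono hql.nonneg fun ω hω h2 => ?_
          by_cases h3 : RG ω
          · left
            rw [hBig]
            exact ⟨⟨hqB ω hω, h2.1, h3⟩, h2.2⟩
          · exact Or.inr ⟨h2.1, h3⟩
        have h2 := Pool.Agent.H39.BFL.Pb_or_le hql.nonneg hbad2 hbad1
        linarith only [h1, h2]

end Pool.Agent.H25.BFL
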