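import Pool.Agent.H25.BFL.PRDb
import Pool.Agent.H3.BFL.Fdat

/-!
# Board kbfo, row PRD: a new label of the system gives a label of the family
-/

set_option autoImplicit false

namespace Pool.Agent.H25.BFL

open Finset Real
open Pool.Agent.H49.Ent Pool.Agent.H32.Dense Pool.STK Pool.KS3 Pool.BFL Pool.KA Pool.KSAT Pool.K2S
  Pool.PB

theorem P2_comm {Ω T : Type} [Fintype Ω] (p : Ω → ℝ) (g : Ω → T) (A : Ω → Ω → Prop) :
    P2 p g (fun ω ω' => A ω' ω) = P2 p g A := by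
  classical
  unfold P2
  rw [Finset.sum_comm]
  refine Finset.sum_congr rfl fun ω _ => Finset.sum_congr rfl fun ω' _ => ?_
  by_cases h : g ω = g ω'
  · by_cases h' : A ω ω'
    · rw [if_pos ⟨h.symm, h'⟩, if_pos ⟨h, h'⟩, h]
      ring
    · rw [if_neg fun h1 => h' h1.2, if_neg fun h1 => h' h1.2]
  · rw [if_neg fun h1 => h h1.1.symm, if_neg fun h1 => h h1.1]

theorem P2_congr {Ω T T' : Type} [Fintype Ω] (p : Ω → ℝ) {g : Ω → T} {g' : Ω → T'}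
    {A A' : Ω → Ω → Prop} (hg : ∀ ω ω', g ω = g ω' ↔ g' ω = g' ω')
    (hA : ∀ ω ω', A ω ω' ↔ A' ω ω') : P2 p g A = P2 p g' A' := by
  classical
  have e2 : ∀ ω, law p g (g ω) = law p g' (g' ω) := by
    intro ω
    unfold law
    refine Finset.sum_congr rfl fun ω' _ => ?_
    by_cases h1 : g ω' = g ω
    · rw [if_pos h1, if_pos ((hg ω' ω).1 h1)]
    · rw [if_neg h1, if_neg fun h2 => h1 ((hg ω' ω).2 h2)]
  unfold P2
  refine Finset.sum_congr rfl fun ω _ => Finset.sum_congr rfl fun ω' _ => ?_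
  rw [e2]
  by_cases h : g ω = g ω' ∧ A ω ω'
  · rw [if_pos h, if_pos ⟨(hg _ _).1 h.1, (hA _ _).1 h.2⟩]
  · rw [if_neg h, if_neg fun h' => h ⟨(hg _ _).2 h'.1, (hA _ _).2 h'.2⟩]

/-- The production of labels, in terms of the family. -/
theorem prd_fam (m K : ℕ) (κ : ℝ) (hm : 1 ≤ m) (hκ : 0 < κ) (hκ8 : κ ≤ 1 / 8) :
    ∃ κ₁ : ℝ, 0 < κ₁ ∧ ∃ z₀ : ℕ, ∀ (J r z v P h : ℕ) (ψ gs : ℝ) (F : Fam m J) (i₁ : Fin m)
      (A B : F.Ω → Prop) (G : (Fin m → ℤ) × (ℕ × F.ζ) → Pl m),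
      z₀ ≤ z → r ≤ J → v + z ≤ P → v + z ≤ J → 0 < Pe F.p A →
      Ch F i₁ h A → κ * z ≤ 2 * (h * Real.log 2) → 4 * (gs * J) ≤ κ * z → 0 < gs →
      Sp F (m - 2) ψ gs A → Sub B A → Real.exp (-(ψ * J)) * Pe F.p A ≤ κ * Pe F.p B →
      J * Real.log 2 - κ₁ * z ≤
        CH (Pool.Agent.H49.Ent.cond F.p B True) F.T (fun ω => (F.l ω, F.Z ω)) →
      (∀ y, (G y).totalDegree ≤ K) →
      Pb (Pool.Agent.H49.Ent.cond F.p B True) (fun ω => 1 / 2 ^ P <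
        |F.x ω i₁ - MvPolynomial.eval (bp F i₁ ω) (G (ptr F r ω))|) ≤ 1 / 8 →
      Pb (Pool.Agent.H49.Ent.cond F.p B True) (fun ω => ¬ ∀ b : Fin m → ℝ,
        (∀ i, |b i - bp F i₁ ω i| ≤ 1 / 2 ^ v) → ∀ i,
        |MvPolynomial.eval b (MvPolynomial.pderiv i (G (ptr F r ω))) -
          MvPolynomial.eval (bp F i₁ ω) (MvPolynomial.pderiv i (G (ptr F r ω)))| ≤ 1 / 8) ≤
        1 / 8 →
      P2 (Pool.Agent.H49.Ent.cond F.p B True) (slam F v) (fun ω ω' => ¬ ∀ b : Fin m → ℝ,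
        (∀ i, |b i - bp F i₁ ω i| ≤ 1 / 2 ^ v) →
        |MvPolynomial.eval b (G (ptr F r ω')) - MvPolynomial.eval b (G (ptr F r ω))| ≤
          1 / 2 ^ P) ≤ 1 / 8 →
      ∃ B' : F.Ω → Prop, Sub B' B ∧ 1 / 4 * Pe F.p B ≤ Pe F.p B' ∧ Tb F i₁ r K v v P B' := by
  classical
  have hm0 : (0 : ℝ) < m := by exact_mod_cast hm
  obtain ⟨κ₁, hκ₁, z₀, hgc⟩ := grad_chart m K κ m hκ hκ8 hm0
  refine ⟨κ₁, hκ₁, z₀, ?_⟩
  intro J r z v P h ψ gs F i₁ A B G hz hrJ hvP hvJ hA hCh hh hgsJ hgs0 hSp hBA hAB htime hGd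
    hG1 hG2 hG3
  have hB : 0 < Pe F.p B := by
    have h1 : 0 < κ * Pe F.p B := lt_of_lt_of_le (by positivity) hAB
    exact (pos_iff_pos_of_mul_pos h1).1 hκ
  have hql := isLaw_cond F.isLaw hB
  rw [← P2_comm] at hG3
  obtain ⟨σ, hσ, hσP⟩ := sel hql (slam F v) (fun ω' ω => ¬ ∀ b : Fin m → ℝ,
    (∀ i, |b i - bp F i₁ ω i| ≤ 1 / 2 ^ v) →
    |MvPolynomial.eval b (G (ptr F r ω')) - MvPolynomial.eval b (G (ptr F r ω))| ≤ 1 / 2 ^ P)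
  have hσP' := hσP.trans hG3
  obtain ⟨H, hH⟩ : ∃ H : ((Fin m → ℝ) × (Fin m → ℝ)) × F.ζ × ℕ → Pl m,
    H = fun s => G (ptr F r (σ s)) := ⟨_, rfl⟩
  have hHd : ∀ s, (H s).totalDegree ≤ K := fun s => by rw [hH]; exact hGd _
  have hbad := hgc J r z v P h ψ gs F i₁ A B G H hz hrJ hvP hvJ hA hCh hh hgsJ hgs0 hSp hBA hAB
    htime hGd hHd
  have hnGd : Pb (Pool.Agent.H49.Ent.cond F.p B True)
      (fun ω => ¬ GdC F i₁ r v P z G H ω) ≤ 3 / 8 := by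
    have h1 := Pool.Agent.H39.BFL.Pb_or_le hql.nonneg
      (Pool.Agent.H39.BFL.Pb_or_le hql.nonneg hG1 hG2) hσP'
    refine le_trans (Pool.Agent.H39.BFL.Pb_mono hql.nonneg fun ω _ h2 => ?_)
      (h1.trans (by norm_num))
    by_contra h3
    rw [not_or, not_or, not_lt, not_not, not_not] at h3
    obtain ⟨⟨h4, h5⟩, h6⟩ := h3
    refine h2 ⟨h4, fun b hb j => (h5 b hb j).trans ?_, fun b hb => ?_⟩
    · have : 1 ≤ Real.exp ((z : ℝ) / 4) := Real.one_le_exp (by positivity)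
      linarith
    · rw [hH, abs_sub_comm]
      exact h6 b hb
  have hall := Pool.Agent.H39.BFL.Pb_or_le hql.nonneg hnGd hbad
  obtain ⟨Gd, hGdd⟩ : ∃ Gd : F.Ω → Prop, Gd = fun ω => GdC F i₁ r v P z G H ω ∧
    ∀ j, |MvPolynomial.eval (bp F i₁ ω) (MvPolynomial.pderiv j (G (ptr F r ω)))| ≤ 2 * m :=
    ⟨_, rfl⟩
  have h1 : Pb (Pool.Agent.H49.Ent.cond F.p B True) (fun ω => ¬ Gd ω) ≤ 3 / 8 + 2 * κ := by
    refine le_trans (Pool.Agent.H39.BFL.Pb_mono hql.nonneg fun ω _ h2 => ?_) hall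
    by_contra h3
    rw [not_or, not_not] at h3
    refine h2 ?_
    rw [hGdd]
    refine ⟨h3.1, fun j => ?_⟩
    by_contra h4
    refine h3.2 ⟨h3.1, j, ?_⟩
    have : (m : ℝ) + m = 2 * m := by ring
    rw [this]
    exact not_le.1 h4
  have h2 := Pb_add_not hql Gd
  refine ⟨fun ω => B ω ∧ Gd ω, fun ω hω => hω.1, ?_, ⟨G, H, hGd, hHd, fun ω hω => ?_⟩⟩
  · have h3 : 1 / 4 ≤ Pb (Pool.Agent.H49.Ent.cond F.p B True) Gd := by linarith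
    rw [Pb_eq_Pe, Pe_cond, le_div_iff₀ hB] at h3
    exact h3
  · have h3 := hω.2
    rw [hGdd] at h3
    exact ⟨h3.1.g1, h3.2, h3.1.g3⟩

theorem Y_bp {m J : ℕ} (F : Fam m J) (i₁ : Fin m) (r : ℕ) {Γ : Type} (c : ℕ → F.Ω → Γ)
    (y₀ : ℕ → Γ → Fin m → ℝ) (Φ : ℕ → Γ → Pl m) (g : ℕ → ℕ) (ω : F.Ω) :
    (fdat F i₁ r c y₀ Φ g).Y J ω = bp F i₁ ω := by
  rw [bp_line]
  rfl

/-- **Row PRD.** -/
theorem prd_thm : Pool.BFL.PRDStmt := by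
  intro m K κ hm hκ hκ8
  obtain ⟨κ₁, hκ₁, z₀, H⟩ := prd_fam m K κ (by omega) hκ hκ8
  refine ⟨κ₁, hκ₁, z₀, ?_⟩
  intro J r z v P h ψ gs F i₁ A B Γ c y₀ Φ gp hz hrJ hvP hvJ hA hCh hh hgsJ hgs0 hSp hBA hAB htime
    hnew
  have hB : 0 < Pe F.p B := by
    have h1 : 0 < κ * Pe F.p B := lt_of_lt_of_le (by positivity) hAB
    exact (pos_iff_pos_of_mul_pos h1).1 hκ
  have hql := isLaw_cond F.isLaw hB
  obtain ⟨G, hGd, hG1, hG2, hG3⟩ := hnew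
  refine H J r z v P h ψ gs F i₁ A B G hz hrJ hvP hvJ hA hCh hh hgsJ hgs0 hSp hBA hAB htime hGd
    (le_trans (Pool.Agent.H39.BFL.Pb_mono hql.nonneg fun ω _ h1 => ?_) hG1)
    (le_trans (Pool.Agent.H39.BFL.Pb_mono hql.nonneg fun ω _ h1 => ?_) hG2)
    (le_trans (le_of_eq ?_) hG3)
  · rw [Y_bp]
    exact h1
  · rw [Y_bp]
    exact h1
  · refine P2_congr _ (fun ω ω' => ?_) (fun ω ω' => ?_)
    · unfold slam Dat.wn Fam.T1
      simp only [Prod.mk.injEq, fdat]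
      tauto
    · rw [Y_bp]
      exact Iff.rfl

end Pool.Agent.H25.BFL
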