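import Pool.Agent.H19.BFL.Stmts4
import Pool.Agent.H39.BFL.Prob
import Pool.Agent.H80.BFL.REM
import Pool.Agent.H40.BFL.MKO
import Pool.Agent.H90.BFL.Jet
import Pool.Agent.H90.BFL.Sel

/-!
# Board kbfo, row PRD: pure lemmas

Remez inequality with the good event, gradients from values, the slope along a line, and the plane
given by a slab and a chart.
-/

set_option autoImplicit false

namespace Pool.Agent.H25.BFL

open Finset Real
open Pool.Agent.H49.Ent Pool.Agent.H32.Dense Pool.STK Pool.KS3 Pool.BFL Pool.KAF Pool.KAL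

/-- Remez inequality in one variable: the good points of the windows where the polynomial is
large. -/
theorem rem_and (D : ℕ) : ∃ C : ℝ, 1 ≤ C ∧ ∀ (Ω S' : Type) [Fintype Ω] (p : Ω → ℝ) (N : ℕ)
    (T : Ω → ℕ) (s : Ω → S') (q : S' → Polynomial ℝ) (Gd : Ω → Prop) (S₀ : S' → ℝ) (θ M : ℝ),
    IsLaw p → (∀ ω, T ω < N) → (∀ x, (q x).natDegree ≤ D) → 0 ≤ θ → 0 < M → M ≤ Real.log N →
    Real.log N - θ ≤ CH p T s → (∀ x, 0 < S₀ x) →
    (∀ ω, 0 < p ω → Gd ω → |(q (s ω)).eval ((T ω : ℝ) / N)| ≤ S₀ (s ω)) →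
    M * Pb p (fun ω => Gd ω ∧ ¬ ∀ t ∈ Set.Icc (0 : ℝ) 1,
      |(q (s ω)).eval t| ≤ Real.exp M * S₀ (s ω)) ≤ C * (θ + 1) := by
  classical
  obtain ⟨D', hD'⟩ : ∃ D', D' = max D 1 := ⟨_, rfl⟩
  have hDD : D ≤ D' := by rw [hD']; exact le_max_left _ _
  have hD1 : 1 ≤ D' := by rw [hD']; exact le_max_right _ _
  obtain ⟨C', hC', hrim⟩ := rim_thm rmg_thm gvi_thm D'
  refine ⟨2 * D' * (1 + C') + 1, by
    have : 0 ≤ 2 * D' * (1 + C') := by positivity
    linarith, ?_⟩
  intro Ω S' _ p N T s q Gd S₀ θ M hp hT hq hθ hM0 hN hCH hS₀ hGd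
  have hp0 := hp.nonneg
  obtain ⟨B, hB⟩ : ∃ B : S' → Prop, B = fun x => ¬ ∀ t ∈ Set.Icc (0 : ℝ) 1,
      |(q x).eval t| ≤ Real.exp M * S₀ x := ⟨_, rfl⟩
  obtain ⟨g, hg⟩ : ∃ g : Ω → ℝ, g = fun ω => if B (s ω) ∧ Gd ω then 1 else 0 := ⟨_, rfl⟩
  obtain ⟨d, hd⟩ : ∃ d : Ω → ℝ, d = fun ω => Real.log N -
      H (Pool.Agent.H49.Ent.cond p s (s ω)) T := ⟨_, rfl⟩
  have hlaw : ∀ ω, 0 < p ω → IsLaw (Pool.Agent.H49.Ent.cond p s (s ω)) := fun ω hω =>
    ⟨fun a => cond_nonneg hp0 _ _ a, sum_cond p _ (law_pos hp0 s hω).ne'⟩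
  have hd0 : ∀ ω, 0 < p ω → 0 ≤ d ω := by
    intro ω hω
    have h1 := H_le_log_card (hlaw ω hω).nonneg (hlaw ω hω).sum_one T (Finset.range N)
      (fun ω _ => Finset.mem_range.2 (hT ω))
    rw [Finset.card_range] at h1
    rw [hd]
    simp only
    linarith
  have hdm : Ex p d ≤ θ := by
    have h1 : Ex p (fun ω => H (Pool.Agent.H49.Ent.cond p s (s ω)) T) = CH p T s :=
      CDF.Ex_H hp0 T s
    have e := Ex_sub p (fun _ => Real.log N)
      (fun ω => H (Pool.Agent.H49.Ent.cond p s (s ω)) T)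
    rw [Ex_const hp.sum_one, h1] at e
    rw [hd, e]
    linarith
  -- the pointwise bound
  have hpt : ∀ ω, 0 < p ω → M * Ex (Pool.Agent.H49.Ent.cond p s (s ω)) g ≤
      2 * D' * (d ω + C') := by
    intro ω hω
    have hfib : ∀ ω', 0 < Pool.Agent.H49.Ent.cond p s (s ω) ω' → s ω' = s ω := fun ω' h =>
      ((cond_pos_iff hp0 s (s ω) ω').1 h).2
    have hfib' : ∀ ω', 0 < Pool.Agent.H49.Ent.cond p s (s ω) ω' → 0 < p ω' := fun ω' h =>
      ((cond_pos_iff hp0 s (s ω) ω').1 h).1
    by_cases hBω : B (s ω)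
    · rw [hd]
      simp only
      rw [hB] at hBω
      refine Pool.BFL.Rem.core (hlaw ω hω) hT hD1
        (fun P S h1 h2 h3 => hrim Ω _ N T P S (hlaw ω hω) hT h1 h2 h3)
        ((hq (s ω)).trans hDD) hM0.le (hS₀ (s ω)) hN g (fun ω' h => ?_) (fun ω' h h' => ?_) hBω
      · rw [hg]
        simp only
        split_ifs
        · exact ⟨zero_le_one, le_rfl⟩
        · exact ⟨le_rfl, zero_le_one⟩
      · have h1 := hfib ω' h
        have h2 : Gd ω' := by
          by_contra h3
          refine h' ?_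
          rw [hg]
          simp only
          rw [if_neg fun h4 => h3 h4.2]
        have h3 := hGd ω' (hfib' ω' h) h2
        rwa [h1] at h3
    · have h1 : Ex (Pool.Agent.H49.Ent.cond p s (s ω)) g = 0 := by
        unfold Ex
        refine Finset.sum_eq_zero fun ω' _ => ?_
        rcases ((hlaw ω hω).nonneg ω').eq_or_lt with h0 | h0
        · rw [← h0, zero_mul]
        · rw [hg]
          simp only
          rw [if_neg fun h4 => hBω (by rw [← hfib ω' h0]; exact h4.1), mul_zero]
      rw [h1, mul_zero]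
      have := hd0 ω hω
      positivity
  have htow : Ex p (fun ω => Ex (Pool.Agent.H49.Ent.cond p s (s ω)) g) = Ex p g :=
    Pool.KVA.Ex_tower hp0 s g
  have h1 : M * Ex p g ≤ 2 * D' * (θ + C') := by
    rw [← htow]
    have h2 : M * Ex p (fun ω => Ex (Pool.Agent.H49.Ent.cond p s (s ω)) g) ≤
        Ex p (fun ω => 2 * D' * (d ω + C')) := by
      unfold Ex
      rw [Finset.mul_sum]
      refine Finset.sum_le_sum fun ω _ => ?_
      rcases (hp0 ω).eq_or_lt with h0 | h0
      · rw [← h0, zero_mul, zero_mul, mul_zero]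
      · have := mul_le_mul_of_nonneg_left (hpt ω h0) h0.le
        unfold Ex at this
        calc M * (p ω * ∑ x, Pool.Agent.H49.Ent.cond p s (s ω) x * g x) =
              p ω * (M * ∑ x, Pool.Agent.H49.Ent.cond p s (s ω) x * g x) := by ring
          _ ≤ _ := this
    have h3 : Ex p (fun ω => 2 * D' * (d ω + C')) = 2 * D' * (Ex p d + C') := by
      unfold Ex
      rw [show (2 : ℝ) * D' * (∑ ω, p ω * d ω + C') = ∑ ω, 2 * D' * (p ω * d ω) +
        2 * D' * C' * ∑ ω, p ω by
          rw [hp.sum_one, ← Finset.mul_sum]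
          ring, Finset.mul_sum, ← Finset.sum_add_distrib]
      refine Finset.sum_congr rfl fun ω _ => ?_
      ring
    rw [h3] at h2
    have h4 : 2 * (D' : ℝ) * (Ex p d + C') ≤ 2 * D' * (θ + C') :=
      mul_le_mul_of_nonneg_left (by linarith) (by positivity)
    linarith
  have h2 : Pb p (fun ω => Gd ω ∧ ¬ ∀ t ∈ Set.Icc (0 : ℝ) 1,
      |(q (s ω)).eval t| ≤ Real.exp M * S₀ (s ω)) = Ex p g := by
    unfold Pb Ex
    refine Finset.sum_congr rfl fun ω _ => ?_
    rw [hg, hB]
    simp only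
    by_cases a1 : ¬ ∀ t ∈ Set.Icc (0 : ℝ) 1, |(q (s ω)).eval t| ≤ Real.exp M * S₀ (s ω)
    · by_cases a2 : Gd ω
      · rw [if_pos ⟨a2, a1⟩, if_pos ⟨a1, a2⟩, mul_one]
      · rw [if_neg fun h => a2 h.1, if_neg fun h => a2 h.2, mul_zero]
    · rw [if_neg fun h => a1 h.2, if_neg fun h => a1 h.1, mul_zero]
  rw [h2]
  have hD0 : (0 : ℝ) ≤ D' := Nat.cast_nonneg _
  have h7 : 0 ≤ (D' : ℝ) * (C' * θ) := by positivity
  nlinarith

/-- The gradient from the values on a ball. -/
theorem grad_small (n K : ℕ) : ∃ C : ℝ, 1 ≤ C ∧ ∀ (F : Pl n) (y : Fin n → ℝ) (r S : ℝ),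
    F.totalDegree ≤ K → 0 < r →
    (∀ b : Fin n → ℝ, (∀ i, |b i - y i| ≤ r) → |MvPolynomial.eval b F| ≤ S) →
    ∀ j, |MvPolynomial.eval y (MvPolynomial.pderiv j F)| ≤ C * S / r := by
  obtain ⟨C, hC, hM⟩ := Pool.Agent.H40.BFL.mko_thm K
  refine ⟨C, hC, fun F y r S hF hr hS j => ?_⟩
  have hS0 : 0 ≤ S := (abs_nonneg _).trans (hS y fun i => by rw [sub_self, abs_zero]; exact hr.le)
  obtain ⟨e, he⟩ : ∃ e : Fin n → ℝ, e = fun i => if i = j then 1 else 0 := ⟨_, rfl⟩
  have he1 : e j = 1 := by rw [he]; exact if_pos rfl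
  have he0 : ∀ i, i ≠ j → e i = 0 := fun i hi => by rw [he]; exact if_neg hi
  have h1 := hM (ln F (fun i => y i - r * e i) e) 0 (2 * r) S
    (ln_natDegree hF _ _) (by linarith) (fun t ht => by
      rw [ln_eval]
      refine hS _ fun i => ?_
      have ht' := ht.1
      have ht'' := ht.2
      by_cases hi : i = j
      · subst hi
        rw [he1, abs_le]
        constructor <;> linarith
      · rw [he0 i hi, mul_zero, zero_mul, add_zero, sub_zero, sub_self, abs_zero]
        exact hr.le) r ⟨hr.le, by linarith⟩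
  rw [ln_derivative, Polynomial.eval_finsetSum] at h1
  have h2 : ∑ i, (Polynomial.C (e i) * ln (MvPolynomial.pderiv i F) (fun i => y i - r * e i)
        e).eval r = MvPolynomial.eval y (MvPolynomial.pderiv j F) := by
    rw [Finset.sum_eq_single j]
    · rw [Polynomial.eval_mul, Polynomial.eval_C, he1, one_mul, ln_eval]
      refine congrArg (fun b => MvPolynomial.eval b (MvPolynomial.pderiv j F)) ?_
      funext i
      ring
    · intro i _ hi
      rw [Polynomial.eval_mul, Polynomial.eval_C, he0 i hi, zero_mul]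
    · intro h
      exact absurd (Finset.mem_univ j) h
  rw [h2] at h1
  exact h1.trans (div_le_div_of_nonneg_left (by positivity) hr (by linarith))

/-- Near the centre of a ball on which a polynomial varies little, it varies much less. -/
theorem near_small (n K : ℕ) : ∃ C : ℝ, 1 ≤ C ∧ ∀ (F : Pl n) (y y' : Fin n → ℝ) (r S δ : ℝ),
    F.totalDegree ≤ K → 0 < δ → δ ≤ r →
    (∀ b : Fin n → ℝ, (∀ i, |b i - y i| ≤ r) →
      |MvPolynomial.eval b F - MvPolynomial.eval y F| ≤ S) → (∀ i, |y' i - y i| ≤ δ) →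
    |MvPolynomial.eval y' F - MvPolynomial.eval y F| ≤ C * S * (δ / r) := by
  obtain ⟨C, hC, hM⟩ := Pool.Agent.H40.BFL.mko_thm K
  refine ⟨C, hC, fun F y y' r S δ hF hδ hδr hS hy => ?_⟩
  have hr : 0 < r := lt_of_lt_of_le hδ hδr
  have hS0 : 0 ≤ S := (abs_nonneg _).trans (hS y fun i => by rw [sub_self, abs_zero]; exact hr.le)
  obtain ⟨q, hq⟩ : ∃ q, q = ln F y (fun i => (y' i - y i) * (r / δ)) -
    Polynomial.C (MvPolynomial.eval y F) := ⟨_, rfl⟩
  have hqd : q.natDegree ≤ K := by
    rw [hq]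
    refine (Polynomial.natDegree_sub_le _ _).trans (max_le (ln_natDegree hF _ _) ?_)
    rw [Polynomial.natDegree_C]
    exact Nat.zero_le _
  have hqe : ∀ t, q.eval t = MvPolynomial.eval (fun i => y i + (y' i - y i) * (r / δ) * t) F -
      MvPolynomial.eval y F := by
    intro t
    rw [hq, Polynomial.eval_sub, ln_eval, Polynomial.eval_C]
  have h1 := hM q 0 1 S hqd one_pos (fun t ht => by
    rw [hqe]
    refine hS _ fun i => ?_
    have e : y i + (y' i - y i) * (r / δ) * t - y i = (y' i - y i) * (r / δ) * t := by ring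
    rw [e, abs_mul, abs_mul, abs_of_pos (show 0 < r / δ by positivity),
      abs_of_nonneg ht.1]
    rw [zero_add] at ht
    calc |y' i - y i| * (r / δ) * t ≤ δ * (r / δ) * 1 := by
          refine mul_le_mul (mul_le_mul_of_nonneg_right (hy i) (by positivity)) ht.2 ht.1
            (by positivity)
      _ = r := by field_simp)
  rw [zero_add, div_one] at h1
  have h2 := Convex.norm_image_sub_le_of_norm_hasDerivWithin_le
    (f := fun t => q.eval t) (f' := fun t => q.derivative.eval t) (C := C * S)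
    (s := Set.Icc (0 : ℝ) 1) (x := 0) (y := δ / r)
    (fun t _ => (q.hasDerivAt t).hasDerivWithinAt) (fun t ht => h1 t ht) (convex_Icc 0 1)
    ⟨le_rfl, zero_le_one⟩ ⟨by positivity, by rw [div_le_one hr]; exact hδr⟩
  simp only [hqe] at h2
  have e1 : (fun i => y i + (y' i - y i) * (r / δ) * (δ / r)) = y' := by
    funext i
    have : r / δ * (δ / r) = 1 := by field_simp
    rw [mul_assoc, this]
    ring
  have e2 : (fun i => y i + (y' i - y i) * (r / δ) * 0) = y := by
    funext i
    ring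
  rw [e1, e2, sub_self, sub_zero, Real.norm_eq_abs, sub_zero, Real.norm_eq_abs,
    abs_of_nonneg (show 0 ≤ δ / r by positivity)] at h2
  exact h2

/-- The height above the graph of `H` along a line, on a window `t₀ + ρ τ`. -/
noncomputable def lp {n : ℕ} (H : Pl n) (a E : Fin n → ℝ) (α β t₀ ρ : ℝ) : Polynomial ℝ :=
  Polynomial.C (α + t₀ * β) + Polynomial.C (ρ * β) * Polynomial.X -
    ln H (fun j => a j + t₀ * E j) (fun j => ρ * E j)

lemma lp_eval {n : ℕ} (H : Pl n) (a E : Fin n → ℝ) (α β t₀ ρ τ : ℝ) :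
    (lp H a E α β t₀ ρ).eval τ = α + (t₀ + ρ * τ) * β -
      MvPolynomial.eval (fun j => a j + (t₀ + ρ * τ) * E j) H := by
  unfold lp
  rw [Polynomial.eval_sub, Polynomial.eval_add, Polynomial.eval_mul, Polynomial.eval_C,
    Polynomial.eval_C, Polynomial.eval_X, ln_eval]
  have e : (fun i => a i + t₀ * E i + ρ * E i * τ) = fun j => a j + (t₀ + ρ * τ) * E j := by
    funext j
    ring
  rw [e]
  ring

lemma lp_natDegree {n K : ℕ} {H : Pl n} (hH : H.totalDegree ≤ K) (a E : Fin n → ℝ)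
    (α β t₀ ρ : ℝ) : (lp H a E α β t₀ ρ).natDegree ≤ max K 1 := by
  unfold lp
  refine (Polynomial.natDegree_sub_le _ _).trans (max_le ?_
    ((ln_natDegree hH _ _).trans (le_max_left _ _)))
  refine ((Polynomial.natDegree_add_le _ _).trans (max_le ?_ ?_)).trans (le_max_right K 1)
  · rw [Polynomial.natDegree_C]
    exact Nat.zero_le _
  · exact (Polynomial.natDegree_C_mul_le _ _).trans Polynomial.natDegree_X_le

lemma lp_deriv {n : ℕ} (H : Pl n) (a E : Fin n → ℝ) (α β t₀ ρ τ : ℝ) :
    (lp H a E α β t₀ ρ).derivative.eval τ = ρ * (β - ∑ j, E j *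
      MvPolynomial.eval (fun j => a j + (t₀ + ρ * τ) * E j) (MvPolynomial.pderiv j H)) := by
  unfold lp
  rw [Polynomial.derivative_sub, Polynomial.derivative_add, Polynomial.derivative_C, zero_add,
    Polynomial.derivative_C_mul, Polynomial.derivative_X, mul_one, Polynomial.eval_sub,
    Polynomial.eval_C, ln_derivative, Polynomial.eval_finsetSum, mul_sub, Finset.mul_sum]
  congr 1
  refine Finset.sum_congr rfl fun j _ => ?_
  rw [Polynomial.eval_mul, Polynomial.eval_C, ln_eval]
  have e : (fun i => a i + t₀ * E i + ρ * E i * τ) = fun j => a j + (t₀ + ρ * τ) * E j := by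
    funext j
    ring
  rw [e]
  ring

/-- The slope along a line. -/
theorem line_slope (K : ℕ) : ∃ C : ℝ, 1 ≤ C ∧ ∀ (n : ℕ) (H : Pl n) (a E : Fin n → ℝ)
    (α β t₀ ρ S : ℝ), H.totalDegree ≤ K → 0 < ρ →
    (∀ τ ∈ Set.Icc (0 : ℝ) 1, |(lp H a E α β t₀ ρ).eval τ| ≤ S) →
    ∀ τ ∈ Set.Icc (0 : ℝ) 1, |β - ∑ j, E j *
      MvPolynomial.eval (fun j => a j + (t₀ + ρ * τ) * E j) (MvPolynomial.pderiv j H)| ≤
      C * S / ρ := by
  obtain ⟨C, hC, hM⟩ := Pool.Agent.H40.BFL.mko_thm (max K 1)
  refine ⟨C, hC, fun n H a E α β t₀ ρ S hH hρ hS τ hτ => ?_⟩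
  have h1 := hM (lp H a E α β t₀ ρ) 0 1 S (lp_natDegree hH _ _ _ _ _ _) one_pos (fun t ht => by
    rw [zero_add] at ht
    exact hS t ht) τ (by rw [zero_add]; exact hτ)
  rw [lp_deriv, abs_mul, abs_of_pos hρ, div_one] at h1
  rw [le_div_iff₀ hρ, mul_comm]
  exact h1

/-- Splitting a sum. -/
lemma sum_split {m : ℕ} {i₁ j₀ : Fin m} (h : j₀ ≠ i₁) (f : Fin m → ℝ) :
    ∑ j, f j = f i₁ + f j₀ + ∑ j ∈ (univ.erase i₁).erase j₀, f j := by
  classical
  rw [← Finset.add_sum_erase univ f (Finset.mem_univ i₁),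
    ← Finset.add_sum_erase (univ.erase i₁) f (Finset.mem_erase.2 ⟨h, Finset.mem_univ j₀⟩)]
  ring

/-- A slab and a chart: the directions lie near an affine plane of codimension two. -/
theorem plane {m : ℕ} (i₁ : Fin m) (u s : Fin m → ℝ) (n δ δ' a : ℝ) (hs0 : s i₁ = 0)
    (hs : ∀ j, |s j| ≤ 1) (hu : ∃ j, a ≤ |u j|) (hδ : 0 ≤ δ) (ha : 0 < a) (hδa : 2 * δ < a) :
    ∃ (b : Fin m → ℝ) (e : Fin (m - 2) → Fin m → ℝ), ∀ d : Fin m → ℝ, (∀ i, |d i| ≤ 1) →
      |∑ i, u i * Function.update d i₁ 1 i| ≤ δ → |d i₁ - n - ∑ j, s j * d j| ≤ δ' →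
      ∃ c : Fin (m - 2) → ℝ, ∀ i, |d i - b i - ∑ l, c l * e l i| ≤ δ' + 2 * m * δ / a := by
  classical
  have hm0 : (0 : ℝ) < m := by exact_mod_cast i₁.pos
  by_cases hj : ∃ j₀, j₀ ≠ i₁ ∧ a / (2 * m) ≤ |u j₀|
  · obtain ⟨j₀, hj0, hju⟩ := hj
    have hu0 : 0 < |u j₀| := lt_of_lt_of_le (by positivity) hju
    have hu0' : u j₀ ≠ 0 := abs_pos.1 hu0
    set S : Finset (Fin m) := (univ.erase i₁).erase j₀ with hS
    have hcard : S.card = m - 2 := by
      rw [hS, Finset.card_erase_of_mem (Finset.mem_erase.2 ⟨hj0, Finset.mem_univ j₀⟩),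
        Finset.card_erase_of_mem (Finset.mem_univ i₁), Finset.card_univ, Fintype.card_fin]
      omega
    set eq := Finset.equivFinOfCardEq hcard with heq
    refine ⟨fun i => if i = j₀ then -u i₁ / u j₀ else if i = i₁ then n - s j₀ * u i₁ / u j₀ else 0,
      fun l i => if i = (eq.symm l : Fin m) then 1 else if i = j₀ then -u (eq.symm l) / u j₀
        else if i = i₁ then s (eq.symm l) - s j₀ * u (eq.symm l) / u j₀ else 0,
      fun d hd h1 h2 => ⟨fun l => d (eq.symm l), fun i => ?_⟩⟩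
    have hsum : ∀ f : Fin m → ℝ, ∑ l, f (eq.symm l) = ∑ j ∈ S, f j := by
      intro f
      rw [Equiv.sum_comp eq.symm (fun j : S => f j), Finset.sum_coe_sort]
    have hsum' := hsum (fun j => d j * (if i = j then 1 else if i = j₀ then -u j / u j₀
        else if i = i₁ then s j - s j₀ * u j / u j₀ else 0))
    simp only at hsum' ⊢
    rw [hsum']
    have herr : |(∑ i, u i * Function.update d i₁ 1 i) / u j₀| ≤ 2 * m * δ / a := by
      rw [abs_div]
      refine (div_le_div₀ hδ h1 (by positivity) hju).trans (le_of_eq ?_)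
      field_simp
    have hes : ∑ i, u i * Function.update d i₁ 1 i = u i₁ + u j₀ * d j₀ + ∑ j ∈ S, u j * d j := by
      rw [sum_split hj0, Function.update_self, Function.update_of_ne hj0, mul_one]
      congr 1
      refine Finset.sum_congr rfl fun j hjS => ?_
      rw [hS, Finset.mem_erase, Finset.mem_erase] at hjS
      rw [Function.update_of_ne hjS.2.1]
    have hcs : ∑ j, s j * d j = s j₀ * d j₀ + ∑ j ∈ S, s j * d j := by
      rw [sum_split hj0, hs0, zero_mul, zero_add]
    have hm2 : 0 ≤ 2 * m * δ / a := by positivity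
    have hδ' : 0 ≤ δ' := (abs_nonneg _).trans h2
    by_cases hi0 : i = j₀
    · subst hi0
      have e1 : ∑ j ∈ S, d j * (if i = j then 1 else if i = i then -u j / u i
          else if i = i₁ then s j - s i * u j / u i else 0) = -(∑ j ∈ S, u j * d j) / u i := by
        rw [neg_div, Finset.sum_div, ← Finset.sum_neg_distrib]
        refine Finset.sum_congr rfl fun j hjS => ?_
        rw [hS, Finset.mem_erase, Finset.mem_erase] at hjS
        rw [if_neg (Ne.symm hjS.1), if_pos rfl]
        ring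
      rw [e1, if_pos rfl]
      have e2 : d i - -u i₁ / u i - -(∑ j ∈ S, u j * d j) / u i =
          (∑ j, u j * Function.update d i₁ 1 j) / u i := by
        rw [hes]
        field_simp
        ring
      rw [e2]
      linarith
    · by_cases hi1 : i = i₁
      · subst hi1
        have e1 : ∑ j ∈ S, d j * (if i = j then 1 else if i = j₀ then -u j / u j₀
            else if i = i then s j - s j₀ * u j / u j₀ else 0) =
            ∑ j ∈ S, s j * d j - s j₀ * (∑ j ∈ S, u j * d j) / u j₀ := by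
          rw [mul_div_assoc, Finset.sum_div, Finset.mul_sum, ← Finset.sum_sub_distrib]
          refine Finset.sum_congr rfl fun j hjS => ?_
          rw [hS, Finset.mem_erase, Finset.mem_erase] at hjS
          rw [if_neg (Ne.symm hjS.2.1), if_neg hi0, if_pos rfl]
          ring
        rw [e1, if_neg hi0, if_pos rfl]
        have e2 : d i - (n - s j₀ * u i / u j₀) -
            (∑ j ∈ S, s j * d j - s j₀ * (∑ j ∈ S, u j * d j) / u j₀) =
            (d i - n - ∑ j, s j * d j) +
              s j₀ * ((∑ j, u j * Function.update d i 1 j) / u j₀) := by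
          rw [hes, hcs]
          field_simp
          ring
        rw [e2]
        refine (abs_add_le _ _).trans (add_le_add h2 ?_)
        rw [abs_mul]
        calc |s j₀| * |(∑ j, u j * Function.update d i 1 j) / u j₀|
            ≤ 1 * (2 * m * δ / a) := mul_le_mul (hs j₀) herr (abs_nonneg _) zero_le_one
          _ = _ := one_mul _
      · have hiS : i ∈ S := by
          rw [hS, Finset.mem_erase, Finset.mem_erase]
          exact ⟨hi0, hi1, Finset.mem_univ i⟩
        have e1 : ∑ j ∈ S, d j * (if i = j then 1 else if i = j₀ then -u j / u j₀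
            else if i = i₁ then s j - s j₀ * u j / u j₀ else 0) = d i := by
          rw [Finset.sum_eq_single i]
          · rw [if_pos rfl, mul_one]
          · intro j _ hji
            rw [if_neg (Ne.symm hji), if_neg hi0, if_neg hi1, mul_zero]
          · intro h
            exact absurd hiS h
        rw [e1, if_neg hi0, if_neg hi1, sub_zero, sub_self, abs_zero]
        linarith
  · push Not at hj
    refine ⟨0, 0, fun d hd h1 _ => ?_⟩
    exfalso
    obtain ⟨j, hju⟩ := hu
    have hm1 : a / (2 * m) ≤ a / 2 := by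
      refine div_le_div_of_nonneg_left ha.le (by norm_num) ?_
      have : (1 : ℝ) ≤ m := by exact_mod_cast i₁.pos
      linarith
    have hji : j = i₁ := by
      by_contra h
      have := hj j h
      linarith
    subst hji
    have h3 : ∑ i, u i * Function.update d j 1 i =
        u j + ∑ i ∈ univ.erase j, u i * d i := by
      rw [← Finset.add_sum_erase univ _ (Finset.mem_univ j), Function.update_self, mul_one]
      congr 1
      refine Finset.sum_congr rfl fun i hi => ?_
      rw [Function.update_of_ne (Finset.ne_of_mem_erase hi)]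
    rw [h3] at h1
    have h4 : |∑ i ∈ univ.erase j, u i * d i| ≤ a / 2 := by
      refine (Finset.abs_sum_le_sum_abs _ _).trans ?_
      have h5 : ∀ i ∈ univ.erase j, |u i * d i| ≤ a / (2 * m) := by
        intro i hi
        rw [abs_mul]
        calc |u i| * |d i| ≤ a / (2 * m) * 1 :=
              mul_le_mul (hj i (Finset.ne_of_mem_erase hi)).le (hd i) (abs_nonneg _) (by positivity)
          _ = _ := mul_one _
      refine (Finset.sum_le_card_nsmul _ _ _ h5).trans ?_
      rw [nsmul_eq_mul, Finset.card_erase_of_mem (Finset.mem_univ j), Finset.card_univ,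
        Fintype.card_fin]
      have h6 : ((m - 1 : ℕ) : ℝ) ≤ m := by exact_mod_cast Nat.sub_le m 1
      calc ((m - 1 : ℕ) : ℝ) * (a / (2 * m)) ≤ m * (a / (2 * m)) :=
            mul_le_mul_of_nonneg_right h6 (by positivity)
        _ = a / 2 := by field_simp
    have h5 : |u j| ≤ |u j + ∑ i ∈ univ.erase j, u i * d i| + |∑ i ∈ univ.erase j, u i * d i| := by
      have := abs_sub (u j + ∑ i ∈ univ.erase j, u i * d i) (∑ i ∈ univ.erase j, u i * d i)
      rwa [add_sub_cancel_right] at this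
    linarith

end Pool.Agent.H25.BFL
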